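import Pool.Agent.Work.MP_1698af_al.Main

set_option autoImplicit false

universe u v

namespace Pool.Agent.Results.MP_1698af_al.BasisOnSubtree

/-- Let `T` be a subtree of the right Cayley graph of the free group on `B`, let `I` be a right
ideal of the group algebra generated by its elements supported on `T`, and let `f` be supported
on `T` and belong to some basis of `I`. Then `f` belongs to a basis of `I` supported on `T`. -/
theorem result {B : Type u} {K : Type v} [Field K] (T : Set (FreeGroup B))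
    (hT : ((SimpleGraph.fromRel fun g h : FreeGroup B =>
      ∃ b : B, h = g * FreeGroup.of b).induce T).Connected)
    (I : Submodule (MonoidAlgebra K (FreeGroup B))ᵐᵒᵖ (MonoidAlgebra K (FreeGroup B)))
    (hI : I = Submodule.span (MonoidAlgebra K (FreeGroup B))ᵐᵒᵖ
      {a | a ∈ I ∧ (a.coeff.support : Set (FreeGroup B)) ⊆ T})
    (f : MonoidAlgebra K (FreeGroup B)) (hfT : (f.coeff.support : Set (FreeGroup B)) ⊆ T)
    (hf : ∃ S : Set (MonoidAlgebra K (FreeGroup B)), f ∈ S ∧
      LinearIndepOn (MonoidAlgebra K (FreeGroup B))ᵐᵒᵖ id S ∧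
      Submodule.span (MonoidAlgebra K (FreeGroup B))ᵐᵒᵖ S = I) :
    ∃ S : Set (MonoidAlgebra K (FreeGroup B)), f ∈ S ∧
      LinearIndepOn (MonoidAlgebra K (FreeGroup B))ᵐᵒᵖ id S ∧
      Submodule.span (MonoidAlgebra K (FreeGroup B))ᵐᵒᵖ S = I ∧
      ∀ a ∈ S, (a.coeff.support : Set (FreeGroup B)) ⊆ T := by
  obtain ⟨S, h1, h2, h3⟩ := hf
  exact Pool.Agent.Work.MP_1698af_al.main I T hT.preconnected hI f hfT S h1 h2 h3

end Pool.Agent.Results.MP_1698af_al.BasisOnSubtree
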