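import Pool.Agent.Work.MP_1698af_al.Hedge.CoreThm

set_option autoImplicit false

universe u v

namespace Pool.Agent.Results.MP_1698af_al.CoreClosure

open Pool.Agent.Work.MP_1698af_al.Hedge

/-- Let `T` be a finite subtree, `I` a right ideal generated on `T`, and `U` a space of elements
of `I` supported on `T`. Among the cores over `U` made of elements of `I` supported on `T` there
is a largest one, `W`. No proper direct summand of the ideal generated by `W` contains `U`; this
ideal has a free complement in `I` with a basis supported on `T`; and the ideal generated by `U`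
is a direct summand of `I` exactly when it contains `W`. -/
theorem result {B : Type u} {K : Type v} [Field K] (T : Set (FreeGroup B)) (hfin : T.Finite)
    (hT : ((SimpleGraph.fromRel fun g h : FreeGroup B =>
      ∃ b : B, h = g * FreeGroup.of b).induce T).Connected)
    (I : Submodule (MonoidAlgebra K (FreeGroup B))ᵐᵒᵖ (MonoidAlgebra K (FreeGroup B)))
    (hI : I = Submodule.span (MonoidAlgebra K (FreeGroup B))ᵐᵒᵖ
      {a | a ∈ I ∧ (a.coeff.support : Set (FreeGroup B)) ⊆ T})
    (U : Submodule K (MonoidAlgebra K (FreeGroup B)))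
    (hU : ∀ a ∈ U, a ∈ I ∧ (a.coeff.support : Set (FreeGroup B)) ⊆ T) :
    ∃ W : Submodule K (MonoidAlgebra K (FreeGroup B)),
      IsGreatest {X | IsCore U X ∧
        ∀ a ∈ X, a ∈ I ∧ (a.coeff.support : Set (FreeGroup B)) ⊆ T} W ∧
      (∀ L₁ L₂ : Submodule (MonoidAlgebra K (FreeGroup B))ᵐᵒᵖ (MonoidAlgebra K (FreeGroup B)),
        (∀ a ∈ U, a ∈ L₁) → Disjoint L₁ L₂ →
        L₁ ⊔ L₂ = Submodule.span (MonoidAlgebra K (FreeGroup B))ᵐᵒᵖ W → L₂ = ⊥) ∧
      (∃ S : Set (MonoidAlgebra K (FreeGroup B)),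
        (∀ a ∈ S, (a.coeff.support : Set (FreeGroup B)) ⊆ T) ∧
        LinearIndepOn (MonoidAlgebra K (FreeGroup B))ᵐᵒᵖ id S ∧
        Disjoint (Submodule.span (MonoidAlgebra K (FreeGroup B))ᵐᵒᵖ
          (W : Set (MonoidAlgebra K (FreeGroup B))))
          (Submodule.span (MonoidAlgebra K (FreeGroup B))ᵐᵒᵖ S) ∧
        Submodule.span (MonoidAlgebra K (FreeGroup B))ᵐᵒᵖ W ⊔
          Submodule.span (MonoidAlgebra K (FreeGroup B))ᵐᵒᵖ S = I) ∧
      ((∃ C : Submodule (MonoidAlgebra K (FreeGroup B))ᵐᵒᵖ (MonoidAlgebra K (FreeGroup B)),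
        Disjoint (Submodule.span (MonoidAlgebra K (FreeGroup B))ᵐᵒᵖ
          (U : Set (MonoidAlgebra K (FreeGroup B)))) C ∧
        Submodule.span (MonoidAlgebra K (FreeGroup B))ᵐᵒᵖ U ⊔ C = I) ↔
        ∀ a ∈ W, a ∈ Submodule.span (MonoidAlgebra K (FreeGroup B))ᵐᵒᵖ
          (U : Set (MonoidAlgebra K (FreeGroup B)))) :=
  core_main T hfin hT.preconnected I hI U hU

end Pool.Agent.Results.MP_1698af_al.CoreClosure
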