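import Pool.Agent.Work.MP_1698af_al.Hedge.Exch2

set_option autoImplicit false

universe u v

namespace Pool.Agent.Results.MP_1698af_al.ExchangeGraph

/-- Let `T` be a subtree of the right Cayley graph and let `e`, `e'` be ordered bases of a right
ideal `I`, both supported on `T`. Then `e` is joined to `e'` by a chain of ordered bases of `I`
supported on `T` in which consecutive bases differ in at most one position and the positions
where `e` and `e'` agree are never changed. -/
theorem result {B : Type u} {K : Type v} [Field K] (T : Set (FreeGroup B))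
    (hT : ((SimpleGraph.fromRel fun g h : FreeGroup B =>
      ∃ b : B, h = g * FreeGroup.of b).induce T).Connected)
    (I : Submodule (MonoidAlgebra K (FreeGroup B))ᵐᵒᵖ (MonoidAlgebra K (FreeGroup B)))
    {r : ℕ} (e e' : Fin r → MonoidAlgebra K (FreeGroup B))
    (he : (LinearIndependent (MonoidAlgebra K (FreeGroup B))ᵐᵒᵖ e ∧
      Submodule.span (MonoidAlgebra K (FreeGroup B))ᵐᵒᵖ (Set.range e) = I) ∧
      ∀ j, ((e j).coeff.support : Set (FreeGroup B)) ⊆ T)
    (he' : (LinearIndependent (MonoidAlgebra K (FreeGroup B))ᵐᵒᵖ e' ∧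
      Submodule.span (MonoidAlgebra K (FreeGroup B))ᵐᵒᵖ (Set.range e') = I) ∧
      ∀ j, ((e' j).coeff.support : Set (FreeGroup B)) ⊆ T) :
    Relation.ReflTransGen (fun a b : Fin r → MonoidAlgebra K (FreeGroup B) =>
      ((LinearIndependent (MonoidAlgebra K (FreeGroup B))ᵐᵒᵖ b ∧
        Submodule.span (MonoidAlgebra K (FreeGroup B))ᵐᵒᵖ (Set.range b) = I) ∧
        ∀ j, ((b j).coeff.support : Set (FreeGroup B)) ⊆ T) ∧
      (∃ i, ∀ j ≠ i, a j = b j) ∧ ∀ j, e j = e' j → b j = e j) e e' :=
  Pool.Agent.Work.MP_1698af_al.Hedge.exch_main T hT.preconnected he he'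

end Pool.Agent.Results.MP_1698af_al.ExchangeGraph
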